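import Mathlib
import Pool.Agent.Lib_helper25.ET.Base
import Pool.Agent.Lib_helper94.ET.ER
import Pool.Agent.Lib_helper9.ET.LA

set_option autoImplicit false

namespace Pool.Agent.ET

open MeasureTheory Filter Topology Set
open scoped ContDiff ENNReal

noncomputable section

variable {S : Torus}

/-- the set of waiting vectors is measurable -/
theorem H1_meas (Φ : Flow S) (e : ℂ) (M w : ℝ) : MeasurableSet (Φ.Wst e M w) := by
  have hcl : IsClosed {p : ℝ × (ℂ × ℝ) | M ≤ (Φ.D p.1 p.2 / e).re ∧ |(Φ.D p.1 p.2 / e).im| ≤ w} := by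
    have hc : Continuous (fun p : ℝ × (ℂ × ℝ) => Φ.D p.1 p.2 / e) := Φ.D_cont.div_const e
    exact (isClosed_le continuous_const (Complex.continuous_re.comp hc)).inter
      (isClosed_le ((Complex.continuous_im.comp hc).abs) continuous_const)
  have key : ∀ n : ℕ, IsClosed {v : ℂ × ℝ | ∃ t ∈ Icc (-(n : ℝ)) n,
      M ≤ (Φ.D t v / e).re ∧ |(Φ.D t v / e).im| ≤ w} := by
    intro n
    have h1 : IsCompact (Icc (-(n : ℝ)) n) := isCompact_Icc
    have h2 : IsClosedMap (Prod.snd : (Icc (-(n : ℝ)) n) × (ℂ × ℝ) → ℂ × ℝ) := by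
      have : CompactSpace (Icc (-(n : ℝ)) n) := isCompact_iff_compactSpace.1 h1
      exact isClosedMap_snd_of_compactSpace
    have h3 : IsClosed {p : (Icc (-(n : ℝ)) n) × (ℂ × ℝ) |
        M ≤ (Φ.D p.1 p.2 / e).re ∧ |(Φ.D p.1 p.2 / e).im| ≤ w} :=
      hcl.preimage (by fun_prop : Continuous
        (fun p : (Icc (-(n : ℝ)) n) × (ℂ × ℝ) => ((p.1 : ℝ), p.2)))
    have h4 := h2 _ h3
    convert h4 using 1
    ext v
    constructor
    · rintro ⟨t, ht, h⟩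
      exact ⟨(⟨t, ht⟩, v), h, rfl⟩
    · rintro ⟨⟨t, v'⟩, h, h'⟩
      have h'' : v' = v := h'
      subst h''
      exact ⟨t.1, t.2, h⟩
  have h5 : (Φ.Wst e M w)ᶜ = ⋃ n : ℕ, {v : ℂ × ℝ | ∃ t ∈ Icc (-(n : ℝ)) n,
      M ≤ (Φ.D t v / e).re ∧ |(Φ.D t v / e).im| ≤ w} := by
    ext v
    simp only [Flow.Wst, mem_compl_iff, Set.mem_ofPred_eq, mem_iUnion, not_forall, not_not]
    constructor
    · rintro ⟨t, h⟩
      obtain ⟨n, hn⟩ := exists_nat_ge |t|
      exact ⟨n, t, ⟨by linarith [neg_abs_le t], by linarith [le_abs_self t]⟩, h⟩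
    · rintro ⟨n, t, _, h⟩
      exact ⟨t, h⟩
  have h6 : MeasurableSet (Φ.Wst e M w)ᶜ := by
    rw [h5]
    exact MeasurableSet.iUnion fun n => (key n).measurableSet
  exact h6.of_compl

theorem H1_inv (Φ : Flow S) (e : ℂ) (M w : ℝ) : S.Inv (fun v => v ∈ Φ.Wst e M w) :=
  Torus.Inv.all (P := fun t v => ¬(M ≤ (Φ.D t v / e).re ∧ |(Φ.D t v / e).im| ≤ w))
    fun t => (Φ.D_inv t).comp (fun d => ¬(M ≤ (d / e).re ∧ |(d / e).im| ≤ w))

theorem strip_null (h : S.Ergodic) (Φ : Flow S) (hp : volume S.Tp ≠ 0) (e : ℂ) (he : ‖e‖ = 1)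
    (M w : ℝ) (hw : 0 < w) : volume (Φ.Wst e M w) = 0 := by
  have h1 := recA h Φ e he w hw (Φ.Wst e M w) (H1_meas Φ e M w) (H1_inv Φ e M w)
  have h2 : volume S.Tpᶜ = 0 := (Tp_01 h Φ).resolve_left hp
  have h3 : ∀ᵐ v : ℂ × ℝ, v ∈ S.Tp := by
    rw [ae_iff]
    exact h2
  have h4 : ∀ᵐ v : ℂ × ℝ, v ∉ Φ.Wst e M w := by
    filter_upwards [h1, h3] with v hv hvp hvW
    obtain ⟨T, hT⟩ := (Tp_iff Φ v).1 hvp (|M| + w + 1)
    obtain ⟨t, ht, htW, htw⟩ := hv hvW T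
    have k1 := hT t (ht.trans (le_abs_self t))
    have k2 : ¬ M ≤ (Φ.D t v / e).re := fun hM => hvW t ⟨hM, htw⟩
    have k3 : ¬ M ≤ -(Φ.D t v / e).re := by
      intro hM
      refine htW (-t) ?_
      rw [Φ.D_neg, neg_div, Complex.neg_re, Complex.neg_im, abs_neg]
      exact ⟨hM, htw⟩
    have k4 : ‖Φ.D t v‖ = ‖Φ.D t v / e‖ := by rw [norm_div, he, div_one]
    have k5 := Complex.norm_le_abs_re_add_abs_im (Φ.D t v / e)
    have k6 : |(Φ.D t v / e).re| ≤ |M| := by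
      rw [abs_le]
      push Not at k2 k3
      exact ⟨by linarith [le_abs_self M], by linarith [le_abs_self M]⟩
    rw [k4] at k1
    linarith
  rw [ae_iff] at h4
  simpa using h4

end

end Pool.Agent.ET
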