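import Mathlib
import Pool.Agent.Lib_helper25.ET.Base
import Pool.Agent.Lib_helper92.ET.H1
import Pool.Agent.Lib_helper48.ET.H2
import Pool.Agent.Lib_helper42.ET.IV

set_option autoImplicit false

namespace Pool.Agent.ET

open MeasureTheory Filter Topology Set
open scoped ContDiff ENNReal

noncomputable section

variable {S : Torus}

/-- null sets are pulled back by the flow -/
theorem H3_pull (Φ : Flow S) (t : ℝ) {A : Set (ℂ × ℝ)} (hA : volume A = 0) :
    ∀ᵐ v : ℂ × ℝ, Φ.φ t v ∉ A := by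
  have h1 : S.m A = 0 := (m_null S A).2 hA
  have h2 : S.m (Φ.φ t ⁻¹' A) = 0 := (Φ.mp t).quasiMeasurePreserving.preimage_null h1
  have h3 : volume (Φ.φ t ⁻¹' A) = 0 := (m_null S _).1 h2
  rw [ae_iff]
  exact measure_mono_null (fun v hv => not_not.1 hv) h3

/-- a sector lies in a half-plane -/
theorem H3_im {p e z : ℂ} (he : e ≠ 0) (h : z ∈ sector p (Complex.I * e) 1) :
    0 ≤ ((z - p) / e).im := by
  obtain ⟨x, y, hx, hy, rfl⟩ := h
  have e1 : (p + (x + y * Complex.I) * (Complex.I * e) - p) / e = -y + x * Complex.I := by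
    have : (p + (x + y * Complex.I) * (Complex.I * e) - p) / e =
        (x + y * Complex.I) * Complex.I := by
      field_simp
      ring
    rw [this]
    have h2 := Complex.I_mul_I
    linear_combination (y : ℂ) * h2
  rw [e1]
  simpa using hx

theorem H3_im' {p e z : ℂ} (he : e ≠ 0) (h : z ∈ sector p (-(Complex.I * e)) 1) :
    ((z - p) / e).im ≤ 0 := by
  obtain ⟨x, y, hx, hy, rfl⟩ := h
  have e1 : (p + (x + y * Complex.I) * (-(Complex.I * e)) - p) / e = y - x * Complex.I := by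
    have : (p + (x + y * Complex.I) * (-(Complex.I * e)) - p) / e =
        -((x + y * Complex.I) * Complex.I) := by
      field_simp
      ring
    rw [this]
    have h2 := Complex.I_mul_I
    linear_combination (-y : ℂ) * h2
  rw [e1]
  simpa using hx

theorem strips (h : S.Ergodic) (Φ : Flow S) (hp : volume S.Tp ≠ 0) (e : ℂ) (he : ‖e‖ = 1) :
    ∀ᵐ v : ℂ × ℝ, ∀ (p : ℂ) (w : ℝ), 0 < w → ∃ t, (Φ.φ t v).1 ∈ halfStrip p e w := by
  have he0 : e ≠ 0 := by
    intro h0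
    rw [h0, norm_zero] at he
    exact zero_ne_one he
  have h1 : ∀ᵐ v : ℂ × ℝ, ∀ (r : ℚ) (M n : ℕ),
      Φ.φ (r : ℝ) v ∉ Φ.Wst e M (1 / ((n : ℝ) + 1)) := by
    rw [ae_all_iff]
    intro r
    rw [ae_all_iff]
    intro M
    rw [ae_all_iff]
    intro n
    exact H3_pull Φ r (strip_null h Φ hp e he M _ (by positivity))
  filter_upwards [h1, sectors h Φ hp] with v hv hs p w hw
  -- the function changes its sign
  have hIe : ‖Complex.I * e‖ = 1 := by rw [norm_mul, Complex.norm_I, he, one_mul]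
  obtain ⟨t₁, ht₁⟩ := hs p (Complex.I * e) 1 hIe one_pos
  obtain ⟨t₂, ht₂⟩ := hs p (-(Complex.I * e)) 1 (by rw [norm_neg, hIe]) one_pos
  have k1 := H3_im he0 ht₁
  have k2 := H3_im' he0 ht₂
  have hc : Continuous (fun t : ℝ => (((Φ.φ t v).1 - p) / e).im) :=
    Complex.continuous_im.comp (((continuous_fst.comp (Φ.cont_t v)).sub continuous_const).div_const e)
  obtain ⟨t₀, ht₀⟩ : ∃ t₀ : ℝ, (((Φ.φ t₀ v).1 - p) / e).im = 0 :=
    mem_range_of_exists_le_of_exists_ge hc ⟨t₂, k2⟩ ⟨t₁, k1⟩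
  -- a rational time
  obtain ⟨r, hr⟩ : ∃ r : ℚ, |(((Φ.φ (r : ℝ) v).1 - p) / e).im| < w / 2 := by
    have hopen : IsOpen {t : ℝ | |(((Φ.φ t v).1 - p) / e).im| < w / 2} :=
      isOpen_lt hc.abs continuous_const
    have hne : ({t : ℝ | |(((Φ.φ t v).1 - p) / e).im| < w / 2}).Nonempty := by
      refine ⟨t₀, ?_⟩
      show |(((Φ.φ t₀ v).1 - p) / e).im| < w / 2
      rw [ht₀, abs_zero]
      positivity
    obtain ⟨x, hx, r, rfl⟩ := Rat.denseRange_cast.exists_mem_open hopen hne |>.imp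
      (fun r hr => hr) |> fun ⟨r, hr⟩ => (⟨(r : ℝ), hr, r, rfl⟩ : ∃ x : ℝ,
        x ∈ {t : ℝ | |(((Φ.φ t v).1 - p) / e).im| < w / 2} ∧ ∃ r : ℚ, (r : ℝ) = x)
    exact ⟨r, hx⟩
  obtain ⟨n, hn⟩ := exists_nat_one_div_lt (show (0 : ℝ) < w / 2 by positivity)
  obtain ⟨M, hM⟩ := exists_nat_ge ‖((Φ.φ (r : ℝ) v).1 - p) / e‖
  have h2 := hv r M n
  simp only [Flow.Wst, Set.mem_ofPred_eq, not_forall, not_not] at h2
  obtain ⟨t, ht1, ht2⟩ := h2
  have hdec : ((Φ.φ (t + r) v).1 - p) / e = ((Φ.φ (r : ℝ) v).1 - p) / e +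
      Φ.D t (Φ.φ (r : ℝ) v) / e := by
    rw [Φ.add, Φ.pos t, ← add_div]
    congr 1
    ring
  refine ⟨t + r, (((Φ.φ (t + r) v).1 - p) / e).re, (((Φ.φ (t + r) v).1 - p) / e).im, ?_, ?_, ?_⟩
  · rw [hdec, Complex.add_re]
    have := (abs_le.1 (Complex.abs_re_le_norm (((Φ.φ (r : ℝ) v).1 - p) / e))).1
    linarith
  · rw [hdec, Complex.add_im]
    refine (abs_add_le _ _).trans ?_
    linarith
  · rw [Complex.re_add_im, div_mul_cancel₀ _ he0]
    ring

end

end Pool.Agent.ET
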